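import Mathlib
import Pool.Agent.KS6_27.BPe

/-! # MP_ab14aa_co, Q1: flexible strictly convex realisations of generically rigid braced `n`-gons

For every `n ≥ 8`, and 3-connected ones for every `n ≥ 12`, with `2 n - 3` edges. -/

set_option autoImplicit false

namespace Pool.Agent.Results.MP_ab14aa_co.EveryPolygon
open Pool.Agent.KS6_27.BP

/-- the plane -/
abbrev Plane := EuclideanSpace ℝ (Fin 2)

/-- `0, 1, …, n - 1` (in this cyclic order) is a Hamiltonian cycle of `G` -/
def IsBracedPolygon {n : ℕ} (G : SimpleGraph (Fin n)) : Prop :=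
  ∀ i : Fin n, G.Adj i (finRotate n i)

/-- every triple `i < j < k` of joints is a positively oriented triangle: the joints, in this
cyclic order, are the vertices of a strictly convex polygon (counterclockwise) -/
def StrictlyConvexPolygon {n : ℕ} (p : Fin n → Plane) : Prop :=
  ∀ i j k : Fin n, i < j → j < k →
    0 < (p j 0 - p i 0) * (p k 1 - p i 1) - (p j 1 - p i 1) * (p k 0 - p i 0)

/-- the bar framework `(G, p)` is flexible: a continuous motion preserves the lengths of all bars
and reaches a placement which is not congruent to `p` -/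
def Flexible {n : ℕ} (G : SimpleGraph (Fin n)) (p : Fin n → Plane) : Prop :=
  ∃ γ : unitInterval → Fin n → Plane, Continuous γ ∧ γ 0 = p ∧
    (∀ t u w, G.Adj u w → dist (γ t u) (γ t w) = dist (p u) (p w)) ∧
    ∃ t, ¬ Congruent (γ t) p

/-- every placement with algebraically independent coordinates is rigid -/
def GenericallyRigid {n : ℕ} (G : SimpleGraph (Fin n)) : Prop :=
  ∀ q : Fin n → Plane, AlgebraicIndependent ℚ (fun x : Fin n × Fin 2 => q x.1 x.2) → ¬ Flexible G q

/-- more than three vertices, and connected after deleting any at most two of them -/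
def IsThreeConnected {n : ℕ} (G : SimpleGraph (Fin n)) : Prop :=
  3 < n ∧ ∀ X : Finset (Fin n), X.card ≤ 2 → (G.induce ((↑X : Set (Fin n))ᶜ)).Connected

lemma allA (k : ℕ) : StA (k + 7) := by
  induction k with
  | zero => exact baseA
  | succ k ih =>
    have := stepA (k + 7) (by omega) ih
    rwa [show k + 1 + 7 = k + 7 + 1 by omega]

lemma allB (k : ℕ) : StB (k + 11) := by
  induction k with
  | zero => exact baseB
  | succ k ih =>
    have := stepB (k + 11) (by omega) ih
    rwa [show k + 1 + 11 = k + 11 + 1 by omega]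

lemma cyc_rotate {N : ℕ} {G : SimpleGraph (Fin (N + 1))} (h : Cyc G) : IsBracedPolygon G := by
  intro i
  induction i using Fin.lastCases with
  | last =>
    rw [finRotate_last]
    exact h.2
  | cast j =>
    have : finRotate (N + 1) j.castSucc = j.succ := by
      have := finRotate_of_lt (k := j.1) (n := N) j.2
      exact this
    rw [this]
    exact h.1 j

lemma flex_of_motion {n : ℕ} {G : SimpleGraph (Fin n)} {p : Fin n → Plane}
    {γ : unitInterval → Fin n → Plane} (h : Motion G p γ) : Flexible G p := by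
  obtain ⟨h1, h2, h3, t, u, w, h4⟩ := h
  exact ⟨γ, h1, h2, h3, t, fun hc => h4 (congruent_iff_dist_eq.1 hc u w)⟩

lemma rigid_of_inf {n : ℕ} {G : SimpleGraph (Fin n)} {a b : Fin n} {m : Fin n → Fin 2 → ℝ}
    (h : Inf G a b m) (hab : G.Adj a b) : GenericallyRigid G := by
  rintro q hq ⟨γ, hγ, h0, hd, t, ht⟩
  refine ht (Pool.Agent.Lib.helper1.Rigid2.generic_rigid G a b hab (fun c => m c.1 c.2) ?_ q hq γ
    hγ h0 hd t)
  intro d hd hp
  funext ⟨v, i⟩
  exact h (fun v i => d (v, i)) hd hp v i

/-- For every `n ≥ 8` there is a braced `n`-gon graph with exactly `2 n - 3` edges which is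
generically rigid in the plane (hence minimally so) and has a strictly convex configuration that is
flexible; for every `n ≥ 12` it can moreover be taken 3-connected. -/
theorem result (n : ℕ) (hn : 8 ≤ n) : ∃ (G : SimpleGraph (Fin n)) (p : Fin n → Plane),
    IsBracedPolygon G ∧ G.edgeSet.ncard = 2 * n - 3 ∧ GenericallyRigid G ∧
      (12 ≤ n → IsThreeConnected G) ∧ StrictlyConvexPolygon p ∧ Flexible G p := by
  by_cases h : 12 ≤ n
  · obtain ⟨k, rfl⟩ : ∃ k, n = k + 11 + 1 := ⟨n - 12, by omega⟩
    obtain ⟨G, p, γ, m, a, b, x, hc, he, hi, hab, -, -, hp, hγ, h3, -⟩ := allB k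
    exact ⟨G, p, cyc_rotate hc, by omega, rigid_of_inf hi hab, fun _ => h3, hp, flex_of_motion hγ⟩
  · obtain ⟨k, rfl⟩ : ∃ k, n = k + 7 + 1 := ⟨n - 8, by omega⟩
    obtain ⟨G, p, γ, m, a, b, hc, he, hi, hab, hp, hγ, -⟩ := allA k
    exact ⟨G, p, cyc_rotate hc, by omega, rigid_of_inf hi hab, fun h' => absurd h' h, hp,
      flex_of_motion hγ⟩

end Pool.Agent.Results.MP_ab14aa_co.EveryPolygon
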